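import Pool.Agent.W418.LU2.Final

/-!
MP_5b7a2c_ag: ascent of log uniformization, in arbitrary dimension and mixed characteristic.

Let `V` be a valuation ring of a field `K`, with residue characteristic `p > 0`, let `E` be a
subfield of `K` and `R` a noetherian subring of `E ∩ V` with fraction field `E`. Suppose that
`V ∩ E` is log uniformizable on `Spec R`; this is proved here for Dedekind rings `R`, and it is
known for quasi-excellent `R` of dimension at most `3` (Cossart, Piltant). Suppose that `K` is
generated over `E` by finite-dimensional subspaces which satisfy a complete system of relations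
`f j = 0`, where the `f j` are sums of products of elements of the subspaces whose degrees are
independent modulo `p`. Then `V` is log uniformizable with respect to monomials on every scheme
`X = Spec A`, where `A` is generated over `R` by monomials: for all monomial centres and divisors
there are monomial blowings-up which are log desingularizations of `X` along `V`. There are no
conditions on the dimension, on the rank of `V` and on the residue field extension.
-/

set_option autoImplicit false

universe u

namespace Pool.Agent.Results.MP_5b7a2c_ag.AscentLogUniformization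

open Pool.Agent.W418.LU2

/-- The local ring of `Spec B` at the centre of the valuation ring `V`: the fractions of elements
of `B` whose denominators are units of `V`. -/
def centreRing {F : Type u} [Field F] (V : ValuationSubring F) (B : Subring F) : Subring F where
  carrier := {x | ∃ a ∈ B, ∃ b ∈ B, b ≠ 0 ∧ b⁻¹ ∈ V ∧ x = a * b⁻¹}
  mul_mem' := (lo V.toSubring B).mul_mem'
  one_mem' := (lo V.toSubring B).one_mem'
  add_mem' := (lo V.toSubring B).add_mem'
  zero_mem' := (lo V.toSubring B).zero_mem'
  neg_mem' := (lo V.toSubring B).neg_mem'

/-- The chart `A[I / f]` of the blowing-up of `Spec A` in the ideal `I`. -/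
def blowUpChart {F : Type u} [Field F] (A : Subring F) (I : Ideal A) (f : A) : Subring F :=
  Subring.closure ((A : Set F) ∪ {z | ∃ a ∈ I, z = (a : F) / (f : F)})

/-- `P` is a regular local ring and the zero set of `J` is a divisor with strict normal
crossings: the radical of `J` is generated by the product of some of the elements of a regular
system of parameters. -/
def RegularPair (P : Type u) [CommRing P] (J : Ideal P) : Prop :=
  ∃ (_ : IsRegularLocalRing P) (n : ℕ) (x : Fin n → P) (s : Finset (Fin n)),
    Ideal.span (Set.range x) = IsLocalRing.maximalIdeal P ∧ ringKrullDim P = n ∧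
      J.radical = Ideal.span {∏ i ∈ s, x i}

/-- The blowing-up of `X = Spec A` in `V(I)` is a log desingularization of `(X, V(D))` along the
valuation ring `V`. Here `f ∈ I` generates `I V`, the centre of the lift of the valuation lies in
the chart `Spec A[I / f]`, and the ideal `D I` defines the preimage of `V(D) ∪ V(I)`. -/
def IsLogDesingularization {F : Type u} [Field F] (V : ValuationSubring F) (A : Subring F)
    (D I : Ideal A) : Prop :=
  ∃ f ∈ I, f ≠ 0 ∧ (∀ a ∈ I, (a : F) / (f : F) ∈ V) ∧
    RegularPair (centreRing V (blowUpChart A I f))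
      (Ideal.span {z | ∃ a ∈ D * I, (z : F) = (a : F)})

/-- The valuation ring `V` is log uniformizable on `Spec A`. (The blowings-up in the ideals
`I₀ * I₁` are cofinal: the blowing-up in `I₀ * I₁` factors through the blowing-up in `I₀`.) -/
def IsLogUniformizable {F : Type u} [Field F] (V : ValuationSubring F) (A : Subring F) : Prop :=
  ∀ D I₀ : Ideal A, D ≠ ⊥ → I₀ ≠ ⊥ →
    ∃ I₁ : Ideal A, I₁ ≠ ⊥ ∧ IsLogDesingularization V A D (I₀ * I₁)

/-- The degree modulo `p` of a product of `d s` elements of `W s` for all `s` and of the powers
`f l ^ e l`, where `f l` has the degree `deg l`. -/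
def degree {p n r : ℕ} (deg : Fin r → Fin n → ZMod p) (d : Fin n → ℕ) (e : Fin r → ℕ) :
    Fin n → ZMod p :=
  fun s => d s + ∑ l, e l * deg l s

/-- The group of monomials: the subgroup of `Kˣ` which is generated by the nonzero elements of
`E`, by the nonzero elements of the subspaces `W s`, and by the nonzero elements `f l`. -/
def monomials {E K : Type u} [Field E] [Field K] [Algebra E K] {n r : ℕ}
    (W : Fin n → Submodule E K) (f : Fin r → K) : Subgroup Kˣ :=
  Subgroup.closure {u | (u : K) ∈ Set.range (algebraMap E K) ∨ (∃ s, (u : K) ∈ W s) ∨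
    ∃ l, (u : K) = f l}

/-- `I` is a nonzero ideal which is generated by finitely many monomials (and zero). -/
def IsMonomialIdeal {E K : Type u} [Field E] [Field K] [Algebra E K] {n r : ℕ}
    (W : Fin n → Submodule E K) (f : Fin r → K) {A : Subring K} (I : Ideal A) : Prop :=
  I ≠ ⊥ ∧ ∃ S : Set A, S.Finite ∧
    (∀ a ∈ S, (a : K) ≠ 0 → ∃ u ∈ monomials W f, (u : K) = a) ∧ I = Ideal.span S

/-- Let `V` be a valuation ring of a field `K` in which the prime number `p` is not a unit, let `E`
be a subfield of `K`, and `R` a noetherian subring of `E` with fraction field `E` which lies in `V`.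
Suppose that `R` is a Dedekind ring (or a field), or that `V ∩ E` is log uniformizable on `Spec R`.
Let `K` be generated over `E` by finite-dimensional subspaces `W 0, ..., W (n - 1)`, and let
`f 0, ..., f (r - 1)` be elements of `K` such that each `f j` is a sum of terms, where a term is the
product of a nonzero element `c j i` of `E`, of `d j i s` nonzero elements `g j i s t` of `W s` for
all `s`, and of powers of elements `f l ≠ 0` with `l < j`. Give `f j` the degree (in `(ℤ/p)^n`) of
its first term, and suppose that the differences of the degrees of the other terms of `f j` and the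
degree of `f j`, for all `j` together, are linearly independent modulo `p`. Suppose that the
relations `f j = 0` are complete: the transcendence degree of `K` over `E` is the sum of the
dimensions of the `W s` minus the number of indices `j` with `f j = 0`. Let `X = Spec A`, where `A`
is generated over `R` by finitely many monomials, `A ⊆ V`, and every element of a subspace `W s` has
a nonzero multiple in `A` with a factor in `R`. Then for every closed set `V(D)` and every
blowing-up `X₀` of `X` given by monomial ideals `D` and `I₀` there is a monomial ideal `I₁` such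
that the blowing-up of `X` in `I₀ * I₁`, which factors through `X₀`, is a log desingularization of
`(X, V(D))` along `V`. -/
theorem result {E K : Type u} [Field E] [Field K] [Algebra E K] (V : ValuationSubring K)
    (p : ℕ) [Fact p.Prime] (hpV : V.valuation (p : K) < 1)
    (R : Subring E) [IsNoetherianRing R]
    (hfr : ∀ z : E, ∃ a ∈ R, ∃ b ∈ R, b ≠ 0 ∧ z = a * b⁻¹)
    (hRV : ∀ a ∈ R, algebraMap E K a ∈ V)
    (hR : IsDedekindDomain R ∨ IsLogUniformizable (V.comap (algebraMap E K)) R)
    (n : ℕ) (W : Fin n → Submodule E K) [∀ s, FiniteDimensional E (W s)]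
    (hgen : IntermediateField.adjoin E (⋃ s, (W s : Set K)) = ⊤)
    (r : ℕ) (ι : Fin r → Type) [∀ j, Fintype (ι j)] (i₀ : ∀ j, ι j)
    (c : ∀ j, ι j → E) (hc : ∀ j i, c j i ≠ 0) (d : ∀ j, ι j → Fin n → ℕ)
    (g : ∀ j i s, Fin (d j i s) → K) (hgW : ∀ j i s t, g j i s t ∈ W s)
    (hg0 : ∀ j i s t, g j i s t ≠ 0) (e : ∀ j, ι j → Fin r → ℕ) (f : Fin r → K)
    (he : ∀ j i l, e j i l ≠ 0 → l < j ∧ f l ≠ 0)
    (hf : ∀ j, f j = ∑ i, algebraMap E K (c j i) * ((∏ s, ∏ t, g j i s t) * ∏ l, f l ^ e j i l))
    (deg : Fin r → Fin n → ZMod p) (hdeg : ∀ j, deg j = degree deg (d j (i₀ j)) (e j (i₀ j)))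
    (hind : LinearIndependent (ZMod p) fun q : (j : Fin r) × {i : ι j // i ≠ i₀ j} =>
      degree deg (d q.1 q.2) (e q.1 q.2) - deg q.1)
    (htr : Algebra.trdeg E K + (Nat.card {j // f j = 0} : Cardinal.{u}) =
      ((∑ s, Module.finrank E (W s) : ℕ) : Cardinal.{u}))
    (G : Set K) (hG : G.Finite) (hGm : ∀ z ∈ G, ∃ u ∈ monomials W f, (u : K) = z)
    (A : Subring K) (hA : A = Subring.closure ((R.map (algebraMap E K) : Set K) ∪ G))
    (hAV : A ≤ V.toSubring)
    (hWA : ∀ s, ∀ y ∈ W s, ∃ b ∈ R, b ≠ 0 ∧ algebraMap E K b * y ∈ A)
    (D I₀ : Ideal A) (hD : IsMonomialIdeal W f D) (hI₀ : IsMonomialIdeal W f I₀) :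
    ∃ I₁ : Ideal A, IsMonomialIdeal W f I₁ ∧ IsLogDesingularization V A D (I₀ * I₁) := by
  have hRW : R ≤ (V.comap (algebraMap E K)).toSubring := fun a ha => hRV a ha
  have hLU : LogUnif (V.comap (algebraMap E K)) R := by
    rcases hR with hR | hR
    · exact logUnif_of_dedekind _ R hRW hfr
    · exact hR
  exact ascent V hpV R hfr hRV hLU W hgen ι i₀ c hc d g hgW hg0 e f he hf deg hdeg hind htr A G hG
    hGm hA hAV hWA D I₀ hD hI₀

end Pool.Agent.Results.MP_5b7a2c_ag.AscentLogUniformization
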